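import Pool.Agent.H57.LH.Targets2

set_option autoImplicit false

namespace Pool.Agent.H1.LH

open Pool.Agent.H68.BP Pool.Agent.H58.SF Pool.Agent.H53.NR
open Pool.Agent.H57.AR (tp ty)
open Pool.Agent.H57.LH Function

variable {V : Type} {ρ : Sig}

/-- the Ramsey property of products with the index set `I` -/
def PRV_P (𝔹 : Str ρ V) (I : Type) : Prop :=
  ∀ (k : ℕ) (Y : Type) [Finite Y] (n : I → ℕ)
    (x : (i : I) → Fin (n i) → V), (∀ i, Injective (x i)) →
    ∃ (N : I → ℕ) (e : (i : I) → Fin (N i) → V), ∀ χ : ((i : I) → Fin k → Fin (N i)) → Y,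
      ∃ φ : (i : I) → Fin (n i) → Fin (N i),
      (∀ i, tp 𝔹 (fun a => e i (φ i a)) = tp 𝔹 (x i)) ∧
      ∀ a a' : (i : I) → Fin k → Fin (n i),
        (∀ i, pull 𝔹 (fun b => x i (a i b)) = pull 𝔹 (fun b => x i (a' i b)) ∧
          ∀ b b', a i b < a i b' ↔ a' i b < a' i b') →
        χ (fun i b => φ i (a i b)) = χ (fun i b => φ i (a' i b))

theorem PRV_equiv (𝔹 : Str ρ V) {α β : Type} (f : α ≃ β) (h : PRV_P 𝔹 α) : PRV_P 𝔹 β := by
  intro k Y _ n x hx
  obtain ⟨N', e', he⟩ := h k Y (fun i => n (f i)) (fun i => x (f i)) fun i => hx _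
  refine ⟨fun i => N' (f.symm i), fun i => e' (f.symm i), fun χ => ?_⟩
  obtain ⟨φ', h1, h2⟩ := he (fun b => χ (fun i => b (f.symm i)))
  refine ⟨fun i a => φ' (f.symm i) (Fin.cast (congrArg n (f.apply_symm_apply i).symm) a),
    fun i => ?_, fun a a' haa => ?_⟩
  · have key : ∀ (j : β) (hj : j = i) (g : Fin (n j) → V), tp 𝔹 g = tp 𝔹 (x j) →
        tp 𝔹 (fun a : Fin (n i) => g (Fin.cast (congrArg n hj.symm) a)) = tp 𝔹 (x i) := by
      intro j hj g hg
      subst hj
      exact hg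
    exact key _ (f.apply_symm_apply i) _ (h1 (f.symm i))
  · have key : ∀ (a : (i : β) → Fin k → Fin (n i)) (i j : β) (hj : j = i) (b : Fin k),
        a j b = Fin.cast (congrArg n hj.symm) (a i b) := by
      intro a i j hj b
      subst hj
      rfl
    have h3 := h2 (fun i => a (f i)) (fun i => a' (f i)) fun i => haa (f i)
    have h4 : ∀ a : (i : β) → Fin k → Fin (n i),
        (fun (i : β) (b : Fin k) => φ' (f.symm i) (a (f (f.symm i)) b)) =
        fun i b => φ' (f.symm i) (Fin.cast (congrArg n (f.apply_symm_apply i).symm) (a i b)) := by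
      intro a
      funext i b
      rw [key a i _ (f.apply_symm_apply i) b]
    calc χ (fun i b => φ' (f.symm i) (Fin.cast (congrArg n (f.apply_symm_apply i).symm) (a i b)))
        = χ (fun i b => φ' (f.symm i) (a (f (f.symm i)) b)) := congrArg χ (h4 a).symm
      _ = χ (fun i b => φ' (f.symm i) (a' (f (f.symm i)) b)) := h3
      _ = _ := congrArg χ (h4 a')

/-- functions on `Option I` -/
def PRV_N {I : Type} (N0 : ℕ) (N : I → ℕ) : Option I → ℕ
  | none => N0
  | some i => N i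

/-- tuples of tuples -/
def PRV_E {I : Type} {N0 : ℕ} {N : I → ℕ} (e0 : Fin N0 → V) (e : (i : I) → Fin (N i) → V) :
    (i : Option I) → Fin (PRV_N N0 N i) → V
  | none => e0
  | some i => e i

/-- indices -/
def PRV_A {I : Type} {N0 k : ℕ} {N : I → ℕ} (a : Fin k → Fin N0)
    (b : (i : I) → Fin k → Fin (N i)) : (i : Option I) → Fin k → Fin (PRV_N N0 N i)
  | none => a
  | some i => b i

/-- maps -/
def PRV_F {I : Type} {N0 : ℕ} {N : I → ℕ} (n : Option I → ℕ) (φ0 : Fin (n none) → Fin N0)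
    (φ : (i : I) → Fin (n (some i)) → Fin (N i)) :
    (i : Option I) → Fin (n i) → Fin (PRV_N N0 N i)
  | none => φ0
  | some i => φ i

theorem PRV_FA {I : Type} {N0 k : ℕ} {N : I → ℕ} (n : Option I → ℕ) (φ0 : Fin (n none) → Fin N0)
    (φ : (i : I) → Fin (n (some i)) → Fin (N i)) (a : (i : Option I) → Fin k → Fin (n i)) :
    (fun i b => PRV_F n φ0 φ i (a i b)) =
      PRV_A (fun b => φ0 (a none b)) (fun i b => φ i (a (some i) b)) := by
  funext i
  cases i <;> rfl

theorem PRV_option (𝔹 : Str ρ V) (hR : RmV 𝔹) {I : Type} [Finite I] (h : PRV_P 𝔹 I) :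
    PRV_P 𝔹 (Option I) := by
  intro k Y _ n x hx
  obtain ⟨N0, e0, h0⟩ := hR (n none) k (((i : I) → Fin k → Fin (n (some i))) → Y) (x none)
    (hx none)
  obtain ⟨N, e, h1⟩ := h k ((Fin k → Fin N0) → Y) (fun i => n (some i)) (fun i => x (some i))
    fun i => hx _
  refine ⟨PRV_N N0 N, PRV_E e0 e, fun χ => ?_⟩
  obtain ⟨φ, h2, h3⟩ := h1 (fun b a => χ (PRV_A a b))
  obtain ⟨φ0, h4, h5⟩ := h0 (fun a b => χ (PRV_A a (fun i c => φ i (b i c))))
  refine ⟨PRV_F n φ0 φ, fun i => ?_, fun a a' haa => ?_⟩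
  · cases i with
    | none => exact h4
    | some i => exact h2 i
  · rw [PRV_FA, PRV_FA]
    have h6 := congrFun (h5 (a none) (a' none) (haa none).1 (haa none).2) (fun i => a (some i))
    have h7 := congrFun (h3 (fun i => a (some i)) (fun i => a' (some i))
      fun i => haa (some i)) (fun b => φ0 (a' none b))
    exact h6.trans h7

theorem pf_PRV : T_PRV := by
  intro V ρ 𝔹 hR I _
  exact Finite.induction_empty_option (P := PRV_P 𝔹) (fun f h => PRV_equiv 𝔹 f h)
    (fun k Y _ n x _ => ⟨n, x, fun χ => ⟨fun _ a => a, fun i => i.elim, fun a a' _ =>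
      congrArg χ (funext fun i => i.elim)⟩⟩)
    (fun h => PRV_option 𝔹 hR h) I

end Pool.Agent.H1.LH
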